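import Pool.Agent.SQD.Stmts

/-!
# Squad SQD, row INE (helper69): the inert primes
-/

open scoped BigOperators

noncomputable section

namespace Pool.Agent.SQD.H69

open Pool.Agent.SQD

theorem sR_mono {S T : Finset ℕ} (h : S ⊆ T) : sR S ≤ sR T :=
  Finset.sum_le_sum_of_subset_of_nonneg h (fun q _ _ => by positivity)

theorem ine (hSpt : SptStmt) (hMer : MerStmt) : IneStmt := by
  classical
  obtain ⟨C1, h1⟩ := hSpt
  obtain ⟨C2, h2⟩ := hMer
  refine ⟨(5 * C2 + C1) / 2, ?_⟩
  intro d z w hd hw hwz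
  have hz : 2 ≤ z := le_trans hw hwz
  have hd2 : 2 ≤ d := by
    rcases Nat.lt_or_ge d 2 with h | h
    · exfalso
      apply hd
      interval_cases d
      · exact ⟨0, rfl⟩
      · exact ⟨1, rfl⟩
    · exact h
  -- the values of the character
  have htri : ∀ q : ℕ, chi d q = 0 ∨ chi d q = 1 ∨ chi d q = -1 := by
    intro q
    unfold chi
    split_ifs with h
    · exact Or.inl rfl
    · rcases jacobiSym.trichotomy (d : ℤ) q with h | h | h <;> rw [h]
      · exact Or.inl (by norm_num)
      · exact Or.inr (Or.inl (by norm_num))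
      · exact Or.inr (Or.inr (by norm_num))
  have hpt : ∀ q : ℕ, (1 - chi d q) / (q : ℝ) = (if chi d q = -1 then 2 * ((1 : ℝ) / q) else 0) +
      (if chi d q = 0 then (1 : ℝ) / q else 0) := by
    intro q
    rcases htri q with h | h | h <;> rw [h] <;> norm_num
    rw [div_eq_mul_inv]
  have hsum : ∑ q ∈ PR 0 z, (1 - chi d q) / (q : ℝ) =
      2 * sR ((PR 0 z).filter (fun q => chi d q = -1)) +
        sR ((PR 0 z).filter (fun q => chi d q = 0)) := by
    rw [Finset.sum_congr rfl (fun q _ => hpt q), Finset.sum_add_distrib, ← Finset.sum_filter,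
      ← Finset.sum_filter, ← Finset.mul_sum]
    rfl
  have hsum2 : ∑ q ∈ PR 0 z, (1 - chi d q) / (q : ℝ) =
      2 * sR (PR 0 z) - ∑ q ∈ PR 0 z, (1 + chi d q) / (q : ℝ) := by
    unfold sR
    rw [Finset.mul_sum, ← Finset.sum_sub_distrib]
    refine Finset.sum_congr rfl (fun q _ => ?_)
    ring
  -- the ramified primes
  have hram : (PR 0 z).filter (fun q => chi d q = 0) ⊆ PR 0 (2 * d) := by
    intro q hq
    obtain ⟨hq1, hq2⟩ := Finset.mem_filter.mp hq
    obtain ⟨hq3, hq4⟩ := Finset.mem_filter.mp hq1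
    have hdvd : q ∣ 2 * d := by
      unfold chi at hq2
      split_ifs at hq2 with h
      · have h5 : 2 ∣ q := Nat.dvd_of_mod_eq_zero h
        have h6 : 2 = q := (Nat.prime_dvd_prime_iff_eq Nat.prime_two hq4).mp h5
        rw [← h6]
        exact Dvd.intro d rfl
      · have h5 : jacobiSym (d : ℤ) q = 0 := by exact_mod_cast hq2
        haveI : NeZero q := ⟨hq4.ne_zero⟩
        rw [jacobiSym.eq_zero_iff_not_coprime] at h5
        have h6 : ¬ Nat.Coprime d q := by
          intro h7
          apply h5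
          rw [Int.gcd_natCast_natCast]
          exact h7
        have h8 : q ∣ d := by
          by_contra h9
          exact h6 ((Nat.Prime.coprime_iff_not_dvd hq4).mpr h9).symm
        exact Dvd.dvd.mul_left h8 2
    refine Finset.mem_filter.mpr ⟨Finset.mem_Ioc.mpr ⟨hq4.pos, ?_⟩, hq4⟩
    exact Nat.le_of_dvd (by omega) hdvd
  -- the small inert primes
  have hinert : (PR 0 z).filter (fun q => chi d q = -1) ⊆ PR 0 w ∪ NR w z d := by
    intro q hq
    obtain ⟨hq1, hq2⟩ := Finset.mem_filter.mp hq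
    obtain ⟨hq3, hq4⟩ := Finset.mem_filter.mp hq1
    rw [Finset.mem_union]
    rcases Nat.lt_or_ge w q with h | h
    · right
      refine Finset.mem_filter.mpr ⟨Finset.mem_filter.mpr ⟨Finset.mem_Ioc.mpr
        ⟨h, (Finset.mem_Ioc.mp hq3).2⟩, hq4⟩, ?_⟩
      unfold chi at hq2
      split_ifs at hq2 with h5
      · norm_num at hq2
      · exact_mod_cast hq2
    · left
      exact Finset.mem_filter.mpr ⟨Finset.mem_Ioc.mpr ⟨hq4.pos, h⟩, hq4⟩
  have hin : sR ((PR 0 z).filter (fun q => chi d q = -1)) ≤ sR (PR 0 w) + sR (NR w z d) := by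
    refine le_trans (sR_mono hinert) ?_
    have h5 := Finset.sum_union_inter (s₁ := PR 0 w) (s₂ := NR w z d) (f := fun q : ℕ => (1 : ℝ) / q)
    have h6 : (0 : ℝ) ≤ ∑ q ∈ PR 0 w ∩ NR w z d, (1 : ℝ) / q :=
      Finset.sum_nonneg (fun q _ => by positivity)
    unfold sR
    linarith
  have ha := (h2 2 z le_rfl hz).1
  have hb := (h2 2 (2 * d) le_rfl (by omega)).2
  have hc := (h2 2 w le_rfl hw).2
  have hdd := h1 d z hd hz
  have hmono : sR (PR 2 z) ≤ sR (PR 0 z) := by
    refine sR_mono ?_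
    intro q hq
    obtain ⟨hq3, hq4⟩ := Finset.mem_filter.mp hq
    exact Finset.mem_filter.mpr ⟨Finset.mem_Ioc.mpr ⟨hq4.pos, (Finset.mem_Ioc.mp hq3).2⟩, hq4⟩
  have hl2 : Real.log (Real.log 2) ≤ 0 := by
    apply Real.log_nonpos
    · exact Real.log_nonneg (by norm_num)
    · have := Real.log_two_lt_d9
      linarith
  have hl4 : Real.log (Real.log ((2 * d : ℕ) : ℝ)) ≤ Real.log (Real.log (4 * d)) := by
    have hdR : (2 : ℝ) ≤ d := by exact_mod_cast hd2
    have h7 : (1 : ℝ) < ((2 * d : ℕ) : ℝ) := by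
      push_cast
      linarith
    apply Real.log_le_log (Real.log_pos h7)
    apply Real.log_le_log (by linarith)
    push_cast
    linarith
  have hr := sR_mono hram
  push_cast at ha
  linarith

end Pool.Agent.SQD.H69
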