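import Pool.Agent.SQD.Stmts

/-!
# Squad SQD, row SMT (helper69): the second moment
-/

open scoped BigOperators

noncomputable section

namespace Pool.Agent.SQD.H69

open Pool.Agent.SQD

theorem smt (hChr : ChrStmt) : SmtStmt := by
  classical
  intro D w z hw
  have hS : ∀ q ∈ PR w z, q.Prime ∧ w < q ∧ q ≤ z := by
    intro q hq
    have h := Finset.mem_filter.mp hq
    exact ⟨h.2, (Finset.mem_Ioc.mp h.1).1, (Finset.mem_Ioc.mp h.1).2⟩
  -- the number of exceptional `d` is at most the second moment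
  have h1 : ({d : ℕ | D ≤ d ∧ d < 2 * D ∧ 1 ≤ |TT w z d|}.ncard : ℝ) ≤
      ∑ d ∈ Finset.Ico D (2 * D), (TT w z d) ^ 2 := by
    have h2 : {d : ℕ | D ≤ d ∧ d < 2 * D ∧ 1 ≤ |TT w z d|} =
        ↑((Finset.Ico D (2 * D)).filter (fun d => 1 ≤ |TT w z d|)) := by
      ext d
      simp only [Set.mem_setOf_eq, Finset.coe_filter, Finset.mem_Ico]
      tauto
    rw [h2, Set.ncard_coe_finset, Finset.card_eq_sum_ones, Nat.cast_sum]
    calc ∑ d ∈ (Finset.Ico D (2 * D)).filter (fun d => 1 ≤ |TT w z d|), ((1 : ℕ) : ℝ)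
        ≤ ∑ d ∈ (Finset.Ico D (2 * D)).filter (fun d => 1 ≤ |TT w z d|), (TT w z d) ^ 2 := by
          refine Finset.sum_le_sum (fun d hd => ?_)
          have h3 := (Finset.mem_filter.mp hd).2
          rw [← sq_abs (TT w z d), Nat.cast_one]
          nlinarith
      _ ≤ ∑ d ∈ Finset.Ico D (2 * D), (TT w z d) ^ 2 :=
          Finset.sum_le_sum_of_subset_of_nonneg (Finset.filter_subset _ _)
            (fun d _ _ => sq_nonneg _)
  -- expansion
  have h4 : ∑ d ∈ Finset.Ico D (2 * D), (TT w z d) ^ 2 = ∑ q ∈ PR w z, ∑ q' ∈ PR w z,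
      ((∑ d ∈ Finset.Ico D (2 * D), (jacobiSym d q * jacobiSym d q') : ℤ) : ℝ) /
        ((q : ℝ) * q') := by
    have h5 : ∀ d : ℕ, (TT w z d) ^ 2 = ∑ q ∈ PR w z, ∑ q' ∈ PR w z,
        ((jacobiSym d q : ℝ) * (jacobiSym d q' : ℝ)) / ((q : ℝ) * q') := by
      intro d
      unfold TT
      rw [sq, Finset.sum_mul_sum]
      refine Finset.sum_congr rfl (fun q _ => Finset.sum_congr rfl (fun q' _ => ?_))
      rw [div_mul_div_comm]
    rw [Finset.sum_congr rfl (fun d _ => h5 d), Finset.sum_comm]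
    refine Finset.sum_congr rfl (fun q _ => ?_)
    rw [Finset.sum_comm]
    refine Finset.sum_congr rfl (fun q' _ => ?_)
    rw [← Finset.sum_div]
    push_cast
    rfl
  -- the bound of every term
  have h6 : ∀ q ∈ PR w z, ∀ q' ∈ PR w z,
      ((∑ d ∈ Finset.Ico D (2 * D), (jacobiSym d q * jacobiSym d q') : ℤ) : ℝ) /
        ((q : ℝ) * q') ≤ (if q = q' then (D : ℝ) * ((q : ℝ) ^ 2)⁻¹ else 0) + 1 := by
    intro q hq q' hq'
    obtain ⟨hqp, hqw, -⟩ := hS q hq
    obtain ⟨hqp', hqw', -⟩ := hS q' hq'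
    have hq0 : (0 : ℝ) < q := by exact_mod_cast hqp.pos
    have hq0' : (0 : ℝ) < q' := by exact_mod_cast hqp'.pos
    by_cases he : q = q'
    · subst he
      rw [if_pos rfl]
      have h7 : (∑ d ∈ Finset.Ico D (2 * D), (jacobiSym d q * jacobiSym d q) : ℤ) ≤ (D : ℤ) := by
        calc (∑ d ∈ Finset.Ico D (2 * D), (jacobiSym d q * jacobiSym d q) : ℤ)
            ≤ ∑ d ∈ Finset.Ico D (2 * D), (1 : ℤ) := by
              refine Finset.sum_le_sum (fun d _ => ?_)
              rcases jacobiSym.trichotomy (d : ℤ) q with h | h | h <;> rw [h] <;> norm_num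
          _ = (D : ℤ) := by
              rw [Finset.sum_const, Nat.card_Ico, nsmul_eq_mul, mul_one]
              congr 1
              omega
      have h8 : ((∑ d ∈ Finset.Ico D (2 * D), (jacobiSym d q * jacobiSym d q) : ℤ) : ℝ) ≤ D := by
        exact_mod_cast h7
      have h9 : ((∑ d ∈ Finset.Ico D (2 * D), (jacobiSym d q * jacobiSym d q) : ℤ) : ℝ) /
          ((q : ℝ) * q) ≤ (D : ℝ) * ((q : ℝ) ^ 2)⁻¹ := by
        rw [← sq, div_eq_mul_inv]
        exact mul_le_mul_of_nonneg_right h8 (by positivity)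
      linarith
    · rw [if_neg he, zero_add, div_le_one (mul_pos hq0 hq0')]
      have h7 := hChr q q' hqp hqp' (by omega) (by omega) he D (2 * D)
      have h8 := le_trans (le_abs_self _) h7
      exact_mod_cast h8
  have hcard : ((PR w z).card : ℝ) ≤ z := by
    have h7 : (PR w z).card ≤ z := by
      refine le_trans (Finset.card_filter_le _ _) ?_
      rw [Nat.card_Ioc]
      omega
    exact_mod_cast h7
  have hcard0 : (0 : ℝ) ≤ ((PR w z).card : ℝ) := by positivity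
  have hw0 : (0 : ℝ) < w := by exact_mod_cast (by omega : 0 < w)
  have hsq : ∑ q ∈ PR w z, ((q : ℝ) ^ 2)⁻¹ ≤ (w : ℝ)⁻¹ := by
    rcases le_total w z with hwz | hwz
    · calc ∑ q ∈ PR w z, ((q : ℝ) ^ 2)⁻¹ ≤ ∑ q ∈ Finset.Ioc w z, ((q : ℝ) ^ 2)⁻¹ :=
            Finset.sum_le_sum_of_subset_of_nonneg (Finset.filter_subset _ _)
              (fun q _ _ => by positivity)
        _ ≤ (w : ℝ)⁻¹ - (z : ℝ)⁻¹ := sum_Ioc_inv_sq_le_sub (by omega) hwz
        _ ≤ (w : ℝ)⁻¹ := by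
            have h8 : (0 : ℝ) ≤ (z : ℝ)⁻¹ := by positivity
            linarith
    · have h8 : PR w z = ∅ := by
        unfold PR
        rw [Finset.Ioc_eq_empty (by omega), Finset.filter_empty]
      rw [h8, Finset.sum_empty]
      positivity
  refine le_trans h1 ?_
  rw [h4]
  calc ∑ q ∈ PR w z, ∑ q' ∈ PR w z,
      ((∑ d ∈ Finset.Ico D (2 * D), (jacobiSym d q * jacobiSym d q') : ℤ) : ℝ) /
        ((q : ℝ) * q')
      ≤ ∑ q ∈ PR w z, ∑ q' ∈ PR w z, ((if q = q' then (D : ℝ) * ((q : ℝ) ^ 2)⁻¹ else 0) + 1) :=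
        Finset.sum_le_sum (fun q hq => Finset.sum_le_sum (fun q' hq' => h6 q hq q' hq'))
    _ = (D : ℝ) * ∑ q ∈ PR w z, ((q : ℝ) ^ 2)⁻¹ + ((PR w z).card : ℝ) ^ 2 := by
        have h9 : ∀ q ∈ PR w z, ∑ q' ∈ PR w z,
            ((if q = q' then (D : ℝ) * ((q : ℝ) ^ 2)⁻¹ else 0) + 1) =
            (D : ℝ) * ((q : ℝ) ^ 2)⁻¹ + ((PR w z).card : ℝ) := by
          intro q hq
          rw [Finset.sum_add_distrib, Finset.sum_ite_eq, if_pos hq, Finset.sum_const,
            nsmul_eq_mul, mul_one]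
        rw [Finset.sum_congr rfl h9, Finset.sum_add_distrib, Finset.sum_const, nsmul_eq_mul,
          Finset.mul_sum]
        ring
    _ ≤ (D : ℝ) / w + (z : ℝ) ^ 2 := by
        have h10 : (D : ℝ) * ∑ q ∈ PR w z, ((q : ℝ) ^ 2)⁻¹ ≤ (D : ℝ) / w := by
          rw [div_eq_mul_inv]
          exact mul_le_mul_of_nonneg_left hsq (by positivity)
        have h11 : ((PR w z).card : ℝ) ^ 2 ≤ (z : ℝ) ^ 2 := pow_le_pow_left₀ hcard0 hcard 2
        linarith

end Pool.Agent.SQD.H69
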